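import Mathlib
import Pool.Agent.MP_b6d9c9_nt.Cong5

set_option autoImplicit false

namespace Pool.Agent.Results.MP_b6d9c9_nt.Q1

/-- The congruence `u ≡ v (mod p ^ r)` for rationals: `v_p (u - v) ≥ r`, with `v_p 0 = ∞`. -/
def PadicCong (p : ℕ) (r : ℕ) (u v : ℚ) : Prop :=
  u = v ∨ (r : ℤ) ≤ padicValRat p (u - v)

/-- The normalised truncated sum `T_a (p)`. -/
def T (p a : ℕ) : ℚ :=
  (∑ k ∈ Finset.range (p ^ a),
    (28 * k + 3 : ℚ) * (((4 * k).factorial : ℚ) / (k.factorial : ℚ) ^ 4) /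
      (-3 * 2 ^ 12 : ℚ) ^ k) / (p : ℚ) ^ a

open Pool.Agent.MP_b6d9c9_nt in
lemma legendre_eq (p : ℕ) [hp : Fact p.Prime] (h3 : 3 < p) (a : ℕ) :
    (legendreSym 3 ((p : ℤ) ^ a) : ℚ) = chi p ^ a := by
  have h1 : (legendreSym 3 (p : ℤ) : ℚ) = chi p := by
    rw [legendreSym.mod]
    rcases mod_six h3 with h | h
    · have : (p : ℤ) % (3 : ℕ) = 1 := by omega
      rw [this, chi, if_pos (by omega)]
      simp
    · have : (p : ℤ) % (3 : ℕ) = 2 := by omega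
      rw [this, chi, if_neg (by omega)]
      have : legendreSym 3 2 = -1 := by norm_num
      rw [this]
      simp
  induction a with
  | zero => simp
  | succ a ih => rw [pow_succ, legendreSym.mul, Int.cast_mul, ih, h1, pow_succ]

/-- The supercongruence attached to the `28 k + 3` series, for every prime `p > 3` and every
`a ≥ 1`. -/
theorem result (p : ℕ) (hp : p.Prime) (h3 : 3 < p) (a : ℕ) (ha : 1 ≤ a) :
    PadicCong p 3 (T p a)
      (3 * (legendreSym 3 ((p : ℤ) ^ a) : ℚ) +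
        5 / 24 * (legendreSym 3 ((p : ℤ) ^ (a - 1)) : ℚ) * (p : ℚ) ^ 2 *
          (Polynomial.bernoulli (p - 2)).eval (1 / 3)) := by
  haveI := Fact.mk hp
  obtain ⟨b, rfl⟩ : ∃ b, a = b + 1 := ⟨a - 1, by omega⟩
  rw [legendre_eq p h3, legendre_eq p h3, Nat.add_sub_cancel, PadicCong, or_iff_not_imp_left]
  intro hne
  refine Pool.Agent.MP_b6d9c9_nt.D.val (Pool.Agent.MP_b6d9c9_nt.D.cancel (k := b + 1) ?_)
    (sub_ne_zero.2 hne)
  refine (Pool.Agent.MP_b6d9c9_nt.main_cong h3 b).congr ?_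
  have hp0 : (p : ℚ) ^ (b + 1) ≠ 0 := pow_ne_zero _ Pool.Agent.MP_b6d9c9_nt.p_ne
  rw [mul_sub, T, mul_div_cancel₀ _ hp0]
  rfl

end Pool.Agent.Results.MP_b6d9c9_nt.Q1
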